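import Pool.Agent.helper57.LQ.SpecB

/-!
# Row lq:GRD (project lq, MP_ebc808_nt): gradings
-/

set_option autoImplicit false

open Finset PowerSeries

noncomputable section

namespace Pool.Agent.LQ

/-- leading coefficients of the powers of a series `x + ...` -/
theorem GRD_lead (g : FF) (h0 : coeff 0 g = 0) (h1 : coeff 1 g = 1) (j m : ℕ) (hm : m ≤ j) :
    coeff m (g ^ j) = if m = j then 1 else 0 := by
  have hX : (X : FF) ∣ g := by
    rw [PowerSeries.X_dvd_iff, ← PowerSeries.coeff_zero_eq_constantCoeff_apply]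
    exact h0
  obtain ⟨h, hh⟩ := hX
  have hc : constantCoeff h = 1 := by
    rw [hh, ← zero_add 1, PowerSeries.coeff_succ_X_mul] at h1
    rwa [← PowerSeries.coeff_zero_eq_constantCoeff_apply]
  rw [hh, mul_pow]
  by_cases hmj : m = j
  · subst hmj
    rw [if_pos rfl]
    have := PowerSeries.coeff_X_pow_mul (h ^ m) m 0
    rw [zero_add] at this
    rw [this, PowerSeries.coeff_zero_eq_constantCoeff_apply, map_pow, hc, one_pow]
  · rw [if_neg hmj, PowerSeries.coeff_X_pow_mul', if_neg (by omega)]

theorem GRD_gen (N : ℕ) (g : FF) (h0 : coeff 0 g = 0) (h1 : coeff 1 g = 1)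
    (hg : ∀ i m : ℕ, coeff m (g ^ i) ≠ 0 → m % N = i % N) (J : Finset ℕ) (c : ℕ)
    (h : ∀ m : ℕ, coeff m (∑ j ∈ J, g ^ j) ≠ 0 → m % N = c % N) :
    ∀ j ∈ J, j % N = c % N := by
  intro j
  induction j using Nat.strong_induction_on with
  | _ j ih =>
    intro hj
    by_contra hne
    apply hne
    apply h j
    rw [map_sum, Finset.sum_eq_single j]
    · rw [GRD_lead g h0 h1 j j le_rfl, if_pos rfl]
      exact one_ne_zero
    · intro i hi hij
      rcases lt_or_gt_of_ne hij with hlt | hgt
      · by_contra hcoef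
        have e1 := hg i j hcoef
        have e2 := ih i hlt hi
        exact hne (e1.trans e2)
      · rw [GRD_lead g h0 h1 i j hgt.le, if_neg (by omega)]
    · intro hnot
      exact absurd hj hnot

theorem GRD_span (P : ℕ → Prop) (g : FF) (f : FF)
    (hf : f ∈ Submodule.span (ZMod 2) {f : FF | ∃ j : ℕ, P j ∧ f = g ^ j}) :
    ∃ J : Finset ℕ, (∀ j ∈ J, P j) ∧ f = ∑ j ∈ J, g ^ j := by
  classical
  induction hf using Submodule.span_induction with
  | mem x hx =>
    obtain ⟨j, hj, rfl⟩ := hx
    exact ⟨{j}, by simpa using hj, by simp⟩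
  | zero => exact ⟨∅, by simp, by simp⟩
  | add x y _ _ hx hy =>
    obtain ⟨J, hJ, rfl⟩ := hx
    obtain ⟨K, hK, rfl⟩ := hy
    refine ⟨J.filter (fun j => j ∉ K) ∪ K.filter (fun j => j ∉ J), ?_, ?_⟩
    · intro j hj
      rw [Finset.mem_union, Finset.mem_filter, Finset.mem_filter] at hj
      rcases hj with h | h
      · exact hJ j h.1
      · exact hK j h.1
    · have hdisj : Disjoint (J.filter (fun j => j ∉ K)) (K.filter (fun j => j ∉ J)) := by
        rw [Finset.disjoint_left]
        intro j h1 h2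
        rw [Finset.mem_filter] at h1 h2
        exact h1.2 h2.1
      have e1 := Finset.sum_filter_add_sum_filter_not J (fun j => j ∈ K) (fun j => g ^ j)
      have e2 := Finset.sum_filter_add_sum_filter_not K (fun j => j ∈ J) (fun j => g ^ j)
      have e3 : J.filter (fun j => j ∈ K) = K.filter (fun j => j ∈ J) := by
        ext j
        simp only [Finset.mem_filter]
        exact and_comm
      rw [Finset.sum_union hdisj, ← e1, ← e2, e3]
      have h2 := add_self_FF (∑ j ∈ K.filter (fun j => j ∈ J), g ^ j)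
      generalize ∑ j ∈ K.filter (fun j => j ∈ J), g ^ j = a at h2 ⊢
      generalize ∑ j ∈ J.filter (fun j => j ∉ K), g ^ j = b
      generalize ∑ j ∈ K.filter (fun j => j ∉ J), g ^ j = c
      calc a + b + (a + c) = (a + a) + (b + c) := by ring
        _ = b + c := by rw [h2, zero_add]
  | smul a x _ hx =>
    obtain ⟨J, hJ, rfl⟩ := hx
    have ha : a = 0 ∨ a = 1 := by
      revert a
      decide
    rcases ha with rfl | rfl
    · exact ⟨∅, by simp, by simp⟩
    · exact ⟨J, hJ, by simp⟩

theorem GRD (hTGR : TGR_stmt) : GRD_stmt := by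
  obtain ⟨t1, t2, -, t4, t5, -⟩ := hTGR
  have a0 : coeff 0 tt = 0 := by
    rw [t1, if_neg]
    rintro ⟨u, hu, h⟩
    have : u = 0 := by
      have := h.symm
      exact pow_eq_zero_iff (two_ne_zero) |>.1 this
    rw [this] at hu
    exact absurd hu (by decide)
  have a1 : coeff 1 tt = 1 := by
    rw [t1, if_pos]
    exact ⟨1, by decide, by norm_num⟩
  have b0 : coeff 0 DD = 0 := by
    rw [t2, if_neg]
    rintro ⟨u, hu, h⟩
    have : u = 0 := by
      have := h.symm
      exact pow_eq_zero_iff (two_ne_zero) |>.1 this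
    rw [this] at hu
    exact absurd hu (by decide)
  have b1 : coeff 1 DD = 1 := by
    rw [t2, if_pos]
    exact ⟨1, by decide, by norm_num⟩
  exact ⟨fun J c h => GRD_gen 24 tt a0 a1 t4 J c h, fun J c h => GRD_gen 8 DD b0 b1 t5 J c h,
    fun P g f hf => GRD_span P g f hf⟩

end Pool.Agent.LQ
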