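import Pool.Agent.helper57.LQ.SpecB

/-!
# Row lq:ME3 (project lq, MP_ebc808_nt): the modular equation of degree 3
-/

set_option autoImplicit false

open Finset PowerSeries

noncomputable section

namespace Pool.Agent.LQ

theorem ME3_one (hTGR : TGR_stmt) : DD = tt + ex 9 DD := by
  obtain ⟨t1, t2, -⟩ := hTGR
  ext n
  rw [map_add, t1, t2]
  unfold ex
  rw [coeff_mk]
  by_cases hn : ∃ v : ℕ, Odd v ∧ n = v ^ 2
  · obtain ⟨v, hv, rfl⟩ := hn
    rw [if_pos ⟨v, hv, rfl⟩]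
    by_cases h3 : 3 ∣ v
    · obtain ⟨w, rfl⟩ := h3
      have hw : Odd w := (Nat.odd_mul.1 hv).2
      have h9 : 9 ∣ (3 * w) ^ 2 := ⟨w ^ 2, by ring⟩
      have hdiv : (3 * w) ^ 2 / 9 = w ^ 2 := by
        rw [show (3 * w) ^ 2 = 9 * w ^ 2 by ring, Nat.mul_div_cancel_left _ (by norm_num)]
      rw [if_neg, if_pos h9, hdiv, t2, if_pos ⟨w, hw, rfl⟩, zero_add]
      rintro ⟨u, hu, h⟩
      have : 3 * w = u := (Nat.pow_left_injective (n := 2) two_ne_zero) h
      rw [← this] at hu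
      have h2 : Nat.Coprime 3 6 := Nat.Coprime.coprime_dvd_left ⟨w, rfl⟩ hu
      exact absurd h2 (by decide)
    · have hcop : Nat.Coprime v 6 := by
        rw [show (6 : ℕ) = 2 * 3 by norm_num]
        exact Nat.Coprime.mul_right (Nat.coprime_two_right.2 hv)
          ((Nat.coprime_comm.1 ((Nat.Prime.coprime_iff_not_dvd Nat.prime_three).2 h3)))
      have h9 : ¬ 9 ∣ v ^ 2 := by
        intro h
        apply h3
        have : 3 ∣ v ^ 2 := Dvd.dvd.trans (by norm_num) h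
        exact Nat.prime_three.dvd_of_dvd_pow this
      rw [if_pos ⟨v, hcop, rfl⟩, if_neg h9, add_zero]
  · have h1 : ¬ ∃ u : ℕ, u.Coprime 6 ∧ n = u ^ 2 := by
      rintro ⟨u, hu, h⟩
      apply hn
      refine ⟨u, ?_, h⟩
      rw [← Nat.coprime_two_right]
      exact Nat.Coprime.coprime_dvd_right (by norm_num) hu
    rw [if_neg hn, if_neg h1, zero_add]
    split_ifs with h9
    · obtain ⟨k, rfl⟩ := h9
      rw [Nat.mul_div_cancel_left _ (by norm_num), t2, if_neg]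
      rintro ⟨w, hw, rfl⟩
      apply hn
      exact ⟨3 * w, Nat.odd_mul.2 ⟨by decide, hw⟩, by ring⟩
    · rfl

theorem ME3_fix (F : FF) (h0 : coeff 0 F = 0) (h : ex 3 F = F) : F = 0 := by
  ext n
  rw [map_zero]
  induction n using Nat.strong_induction_on with
  | _ n ih =>
    by_cases hn : n = 0
    · rw [hn, h0]
    · rw [← h]
      unfold ex
      rw [coeff_mk]
      split_ifs with h3
      · exact ih (n / 3) (Nat.div_lt_self (Nat.pos_of_ne_zero hn) (by norm_num))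
      · rfl

theorem ME3 (hTGR : TGR_stmt) (hEXP : EXP_stmt) : ME3_stmt := by
  have e1 := ME3_one hTGR
  refine ⟨e1, ?_⟩
  obtain ⟨t1, t2, t3, -⟩ := hTGR
  obtain ⟨x1, x2, x3, -⟩ := hEXP
  set r := ex 9 DD with hr
  have hc0 : coeff 0 DD = 0 := by
    rw [t2, if_neg]
    rintro ⟨u, hu, h⟩
    have : u = 0 := by
      have := h.symm
      exact pow_eq_zero_iff (two_ne_zero) |>.1 this
    rw [this] at hu
    exact absurd hu (by decide)
  have hc1 : coeff 0 tt = 0 := by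
    rw [t1, if_neg]
    rintro ⟨u, hu, h⟩
    have : u = 0 := by
      have := h.symm
      exact pow_eq_zero_iff (two_ne_zero) |>.1 this
    rw [this] at hu
    exact absurd hu (by decide)
  have h4 : (tt + r) ^ 4 = tt ^ 4 + r ^ 4 := by
    have a1 := x3 2 (tt + r)
    have a2 := x3 2 tt
    have a3 := x3 2 r
    rw [(x1 (2 ^ 2) tt r (by norm_num)).2.1, ← a2, ← a3] at a1
    exact a1
  have hex3r : ex 3 (ex 3 DD) = r := by
    rw [x2 3 3 DD (by norm_num) (by norm_num)]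
  set F := DD ^ 4 + ex 3 DD ^ 4 + DD * ex 3 DD with hF
  have hF1 : F = r ^ 4 + tt ^ 12 + r * tt ^ 3 := by
    rw [hF, t3]
    have := add_self_FF (tt ^ 4)
    calc DD ^ 4 + (tt ^ 3) ^ 4 + DD * tt ^ 3
        = (tt + r) ^ 4 + (tt ^ 3) ^ 4 + (tt + r) * tt ^ 3 := by rw [← e1]
      _ = (tt ^ 4 + r ^ 4) + (tt ^ 3) ^ 4 + (tt + r) * tt ^ 3 := by rw [h4]
      _ = (tt ^ 4 + tt ^ 4) + (r ^ 4 + tt ^ 12 + r * tt ^ 3) := by ring
      _ = _ := by rw [this, zero_add]
  have hF2 : ex 3 F = r ^ 4 + tt ^ 12 + r * tt ^ 3 := by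
    rw [hF, (x1 3 _ _ (by norm_num)).2.1, (x1 3 _ _ (by norm_num)).2.1, (x1 3 DD (ex 3 DD) (by norm_num)).1,
      (x1 3 DD DD (by norm_num)).2.2.2 4, (x1 3 (ex 3 DD) DD (by norm_num)).2.2.2 4, hex3r, t3]
    ring
  have hF0 : coeff 0 F = 0 := by
    rw [hF, t3, PowerSeries.coeff_zero_eq_constantCoeff_apply, map_add, map_add, map_mul, map_pow, map_pow, map_pow,
      ← PowerSeries.coeff_zero_eq_constantCoeff_apply, ← PowerSeries.coeff_zero_eq_constantCoeff_apply, hc0, hc1]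
    norm_num
  have hz : F = 0 := ME3_fix F hF0 (by rw [hF2, hF1])
  have h5 : DD ^ 4 + ex 3 DD ^ 4 + DD * ex 3 DD = 0 := by rw [← hF]; exact hz
  have h6 := add_self_FF (DD * ex 3 DD)
  calc DD ^ 4 + ex 3 DD ^ 4 = (DD ^ 4 + ex 3 DD ^ 4) + (DD * ex 3 DD + DD * ex 3 DD) := by rw [h6, add_zero]
    _ = (DD ^ 4 + ex 3 DD ^ 4 + DD * ex 3 DD) + DD * ex 3 DD := by ring
    _ = DD * ex 3 DD := by rw [h5, zero_add]

end Pool.Agent.LQ
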